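import Mathlib
import Pool.Agent.Helper620.CamMilDefs
import Pool.Agent.Helper620.CamMilAutc3

set_option autoImplicit false

namespace Pool.Agent.Results.MP_0b48ca_al.ACentreOrder

open Polynomial Helper620.CMD

/-- Classification of the finite `p`-groups of class 2, `p` odd, with centre of order `p²`, all of
whose automorphisms are class-preserving. -/
theorem result (p : ℕ) [Fact p.Prime] (hp2 : p ≠ 2) :
    (∀ (G : Type) [Group G] [Finite G], IsPGroup p G → (∃ a b : G, a * b ≠ b * a) →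
      commutator G ≤ Subgroup.center G → Nat.card (Subgroup.center G) = p ^ 2 →
      ((∀ φ : MulAut G, ∀ x : G, IsConj x (φ x)) ↔
        ∃ (f : (ZMod p)[X]) (l : AdjoinRoot f →ₗ[ZMod p] ZMod p), Adm f l ∧ HasForm G f l)) ∧
    (∀ (f : (ZMod p)[X]) (l : AdjoinRoot f →ₗ[ZMod p] ZMod p), Adm f l →
      3 ≤ f.natDegree ∧ ∃ (G : Type) (_ : Group G), HasForm G f l ∧
        Nat.card G = p ^ (2 * f.natDegree + 2) ∧ Nat.card (Subgroup.center G) = p ^ 2) ∧
    (∀ (G G' : Type) [Group G] [Finite G] [Group G'] [Finite G']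
      (f : (ZMod p)[X]) (l : AdjoinRoot f →ₗ[ZMod p] ZMod p)
      (f' : (ZMod p)[X]) (l' : AdjoinRoot f' →ₗ[ZMod p] ZMod p), Adm f l → Adm f' l' →
      HasForm G f l → HasForm G' f' l' →
      (Nonempty (G ≃* G') ↔ ∃ (a b c d : ZMod p) (s : AdjoinRoot f ≃ₐ[ZMod p] AdjoinRoot f'),
        Equi f l f' l' a b c d s)) ∧
    (∀ n : ℕ, 3 ≤ n → ∃ (f : (ZMod p)[X]) (l : AdjoinRoot f →ₗ[ZMod p] ZMod p),
      Adm f l ∧ f.natDegree = n) :=
  ⟨Helper620.CM.final_autc3 p hp2, (Helper620.CM.final_autc2 p hp2).2⟩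

end Pool.Agent.Results.MP_0b48ca_al.ACentreOrder
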